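import Pool.Agent.H343.QF.StQ

set_option autoImplicit false
set_option linter.unusedSectionVars false

/-! # QF-Q12: consequences of the windmill property -/

namespace Pool.Agent.H94.QF

open Pool.Agent.TH68 Pool.Agent.Helper97.Hyp Pool.Agent.H343.AN Pool.Agent.H343.QF

theorem q1 : S_q1 := by
  intro Γ _ W 𝒜 _ Y R n hn hne x
  obtain ⟨A, r, hr, hr1, hpd⟩ := R.wind n hn hne x
  refine ⟨A, r, hr, hr1, hpd, ?_⟩
  obtain ⟨x', hx'⟩ := Y.proj A x
  have h1 := IsProj.fix Y (R.fix A r hr) hx'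
  have h2 := R.far A r hr hr1 x' hx'.1
  have h3 := le_pd_of_proj hx' h1
  have h4 := pd_tri (Y.Sne A) x (n • x) (r • x)
  have h5 := pd_symm (Y.Sne A) (n • x) (r • x)
  linarith

theorem q2 : S_near → S_q2 := by
  intro near Γ _ W 𝒜 _ Y R hρ A p q hred
  have hθ : 1 ≤ Y.θ := Y.hδ.trans Y.hθ
  by_contra hcon
  push Not at hcon
  obtain ⟨p', hp'⟩ := Y.proj A p
  obtain ⟨q', hq'⟩ := Y.proj A q
  have h3 : 3 * Y.θ < pd (Y.S A) p q := by linarith
  have h4 := (near Y A hp' hq' h3).1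
  obtain ⟨r, hr, hrd⟩ := R.cob A q' hq'.1 p' hp'.1
  have h5 := hred r⁻¹ (R.N.inv_mem (R.G_le A hr))
  have h6 : dist p (r⁻¹ • q) = dist (r • p) q := by
    rw [← dist_smul r p, smul_inv_smul]
  have h7 := dist_triangle4 (r • p) (r • p') q' q
  rw [dist_smul, dist_comm (r • p') q', dist_comm q' q] at h7
  linarith

end Pool.Agent.H94.QF
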